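import Pool.Agent.Helper53.AE.GoalsA

/-!
MP_8130e1_an, project AE, packet STL: compression to a given kernel by a far element.
-/

set_option autoImplicit false

open scoped ComplexOrder Topology
open Filter TopologicalSpace

namespace Pool.Agent.Helper22.AE

open Pool.Agent.Helper53.AE

theorem t (hCUN : S_CUN) (hFAR : S_FAR) : S_STL := by
  intro C M _ _ D hD hLAF s₁ s₂ hs σ m b e hb hI L y hy S ε hS hε
  classical
  rcases Nat.eq_zero_or_pos L with hL | hL
  · subst hL
    refine ⟨0, zero_mem D, ?_, ?_⟩
    · intro x x' _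
      simp
    · intro d _
      simpa using hε
  obtain ⟨h12, hn⟩ := hCUN M s₁ s₂ hs
  obtain ⟨v, hv, -⟩ := hn L hL
  choose t ht1 ht2 using hI
  set G : Fin m → M := fun x => ∑ l, v l * y l x with hG
  have hGD : ∀ x, G x ∈ D := fun x => sum_mem fun l _ => (hD.2 (v l) _ (hy l x)).1
  set c : ℝ := 1 + ∑ x, ‖G x‖ with hc
  have hc0 : 0 < c := by
    have : 0 ≤ ∑ x, ‖G x‖ := Finset.sum_nonneg fun x _ => norm_nonneg _
    linarith
  set S' : Finset M := (Finset.univ ×ˢ S).image fun p : Fin m × M =>
    star (t (b p.1)) * σ (e (b p.1) p.1) * p.2 with hS'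
  obtain ⟨r, hr1, hr2⟩ := hFAR M D hD hLAF s₁ s₂ hs.1 hs.2.1 h12 S' (ε / c) (by
    intro x hx
    rw [hS', Finset.mem_image] at hx
    obtain ⟨p, hp, rfl⟩ := hx
    exact (hD.2 _ _ (hS _ (Finset.mem_product.1 hp).2)).1) (div_pos hε hc0)
  have hr3 : ∀ x, ∀ d ∈ S, ‖star r * (star (t (b x)) * σ (e (b x) x) * d)‖ < ε / c := by
    intro x d hd
    apply hr2
    rw [hS', Finset.mem_image]
    exact ⟨(x, d), Finset.mem_product.2 ⟨Finset.mem_univ _, hd⟩, rfl⟩
  set X : M := ∑ x, σ (e x (b x)) * (t (b x) * r * G x) with hX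
  have hsX : star X = ∑ x, star (G x) * star r * star (t (b x)) * σ (e (b x) x) := by
    rw [hX, star_sum]
    refine Finset.sum_congr rfl fun x _ => ?_
    rw [star_mul, star_mul, star_mul, ← map_star, hb.star]
    simp only [mul_assoc]
  have hGG : ∀ x x', star (G x) * G x' = ∑ l, star (y l x) * y l x' := by
    intro x x'
    rw [hG]
    simp only [star_sum, Finset.sum_mul, Finset.mul_sum, star_mul]
    refine Finset.sum_congr rfl fun l _ => ?_
    rw [Finset.sum_eq_single l]
    · have := hv l l
      rw [if_pos rfl] at this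
      calc star (y l x) * star (v l) * (v l * y l x')
          = star (y l x) * (star (v l) * v l) * y l x' := by simp only [mul_assoc]
        _ = _ := by rw [this, mul_one]
    · intro l' _ hl'
      have h2 := hv l' l
      rw [if_neg hl'] at h2
      calc star (y l' x) * star (v l') * (v l * y l x')
          = star (y l' x) * (star (v l') * v l) * y l x' := by simp only [mul_assoc]
        _ = 0 := by rw [h2]; simp
    · intro h
      exact absurd (Finset.mem_univ _) h
  refine ⟨X, sum_mem fun x _ => (hD.2 _ _ ((hD.2 _ _ (hGD x)).1)).1, ?_, ?_⟩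
  · intro x x' hxx
    have e1 : σ (e x x') * X = σ (e x (b x')) * (t (b x') * r * G x') := by
      rw [hX, Finset.mul_sum, Finset.sum_eq_single x']
      · rw [← mul_assoc, ← map_mul, hb.mul x x' (b x') hxx (hb.root x').symm]
      · intro z _ hz
        rw [← mul_assoc, ← map_mul, hb.orth x x' z (b z) (Ne.symm hz), map_zero, zero_mul]
      · intro h
        exact absurd (Finset.mem_univ _) h
    have e2 : star X * σ (e x (b x')) =
        star (G x) * star r * star (t (b x)) * σ (e (b x) (b x')) := by
      rw [hsX, Finset.sum_mul, Finset.sum_eq_single x]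
      · rw [mul_assoc, ← map_mul, hb.mul (b x) x (b x') (hb.root x) (by rw [hb.root, hxx])]
      · intro z _ hz
        rw [mul_assoc, ← map_mul, hb.orth (b z) z x (b x') hz, map_zero, mul_zero]
      · intro h
        exact absurd (Finset.mem_univ _) h
    have e3 : star X * σ (e x x') * X =
        star (G x) * star r * star (t (b x)) * σ (e (b x) (b x')) * (t (b x') * r * G x') := by
      rw [mul_assoc, e1, ← mul_assoc, e2]
    rw [e3, ← hxx, ← ht2 (b x), ← hGG]
    calc star (G x) * star r * star (t (b x)) * (t (b x) * star (t (b x))) *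
          (t (b x) * r * G x')
        = star (G x) * star r * (star (t (b x)) * t (b x)) * (star (t (b x)) * t (b x)) *
          (r * G x') := by simp only [mul_assoc]
      _ = star (G x) * (star r * r) * G x' := by
          rw [ht1]; simp only [mul_one, mul_assoc]
      _ = star (G x) * G x' := by rw [hr1, mul_one]
  · intro d hd
    rw [hsX, Finset.sum_mul]
    have h1 : ∀ x, ‖star (G x) * star r * star (t (b x)) * σ (e (b x) x) * d‖ ≤
        ‖G x‖ * (ε / c) := by
      intro x
      calc ‖star (G x) * star r * star (t (b x)) * σ (e (b x) x) * d‖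
          = ‖star (G x) * (star r * (star (t (b x)) * σ (e (b x) x) * d))‖ := by
            simp only [mul_assoc]
        _ ≤ ‖star (G x)‖ * ‖star r * (star (t (b x)) * σ (e (b x) x) * d)‖ := norm_mul_le _ _
        _ ≤ ‖G x‖ * (ε / c) := by
            rw [norm_star]
            exact mul_le_mul_of_nonneg_left (hr3 x d hd).le (norm_nonneg _)
    calc ‖∑ x, star (G x) * star r * star (t (b x)) * σ (e (b x) x) * d‖
        ≤ ∑ x, ‖G x‖ * (ε / c) := norm_sum_le_of_le _ fun x _ => h1 x
      _ = (∑ x, ‖G x‖) * (ε / c) := by rw [Finset.sum_mul]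
      _ < c * (ε / c) := mul_lt_mul_of_pos_right (by rw [hc]; linarith) (div_pos hε hc0)
      _ = ε := by field_simp

end Pool.Agent.Helper22.AE
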